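import Pool.Agent.H.MP_a65cb7_co.Flex

set_option autoImplicit false

namespace Pool.Agent.Results.MP_a65cb7_co.Flexible

open Filter Topology

def Rigid {V : Type} (H : SimpleGraph V) (p : V → EuclideanSpace ℝ (Fin 2)) : Prop :=
  ∃ U ∈ 𝓝 p, ∀ q ∈ U, (∀ i j, H.Adj i j → dist (q i) (q j) = dist (p i) (p j)) →
    ∀ i j, dist (q i) (q j) = dist (p i) (p j)

theorem result (N : ℕ) : ∃ n ≥ N, ∃ G : SimpleGraph (Fin n),
    ∃ p : Fin n → EuclideanSpace ℝ (Fin 2),
      (n : ℝ) ^ 2 / 8 ≤ G.edgeSet.ncard ∧ Function.Injective p ∧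
      (∀ v, ¬ Collinear ℝ (p '' G.neighborSet v)) ∧
      ∀ G' : G.Subgraph, 3 ≤ G'.verts.ncard → ¬ Rigid G'.coe (fun v => p v) := by
  classical
  open Pool.Agent.H.MP_a65cb7_co in
  set m := N + 2 with hm
  have hcard : Fintype.card (W m) = 4 * m := by simp [W]; ring
  let e : Fin (4 * m) ≃ W m := (Fintype.equivFinOfCardEq hcard).symm
  refine ⟨4 * m, by omega, (G m).comap e, q 0 0 ∘ e, ?_, q_inj.comp e.injective, ?_, ?_⟩
  · have hN : ∀ v, ((G m).comap e).neighborSet v = e.symm '' (G m).neighborSet (e v) := by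
      intro v
      ext w
      rw [Equiv.image_symm_eq_preimage]
      rfl
    have h1 := SimpleGraph.sum_degrees_eq_twice_card_edges ((G m).comap e)
    have h2 : ∀ v, m ≤ ((G m).comap e).degree v := by
      intro v
      rw [← SimpleGraph.card_neighborSet_eq_degree, ← Nat.card_eq_fintype_card,
        Nat.card_coe_set_eq, hN, Set.ncard_image_of_injective _ e.symm.injective]
      exact deg _
    have h3 : ∑ _v : Fin (4 * m), m ≤ ∑ v, ((G m).comap e).degree v :=
      Finset.sum_le_sum fun v _ => h2 v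
    rw [h1] at h3
    simp only [Finset.sum_const, Finset.card_univ, Fintype.card_fin, smul_eq_mul] at h3
    rw [← SimpleGraph.coe_edgeFinset, Set.ncard_coe_finset]
    have h4 : (4 : ℝ) * m * m ≤ 2 * (((G m).comap e).edgeFinset.card : ℝ) := by exact_mod_cast h3
    push_cast
    nlinarith
  · intro v
    have : (q 0 0 ∘ e) '' ((G m).comap e).neighborSet v = q 0 0 '' (G m).neighborSet (e v) := by
      rw [Set.image_comp]
      congr 1
      ext w
      constructor
      · rintro ⟨u, hu, rfl⟩; exact hu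
      · intro hw
        exact ⟨e.symm w, by simpa using hw, by simp⟩
    rw [this]
    exact noncol (by omega) _
  · rintro G' hG' ⟨U, hU, hR⟩
    obtain ⟨γ, hc, h0, _, ⟨x, hx, rfl⟩, _, ⟨y, hy, rfl⟩, hev⟩ := flex (e '' G'.verts)
      (by rwa [Set.ncard_image_of_injective _ e.injective])
    have hcont : Continuous fun t : ℝ => fun v : G'.verts => γ t (e v) :=
      continuous_pi fun v => hc _
    have hU' : ∀ᶠ t in 𝓝 (0 : ℝ), (fun v : G'.verts => γ t (e v)) ∈ U := by
      apply hcont.continuousAt.preimage_mem_nhds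
      change U ∈ 𝓝 (fun v : G'.verts => γ 0 (e v))
      rw [h0]
      exact hU
    obtain ⟨t, ⟨h1, h2⟩, h3⟩ := (hev.and (hU'.filter_mono nhdsWithin_le_nhds)).exists
    exact h2 (hR _ h3 (fun i j hij => h1 _ _ (G'.adj_sub hij)) ⟨x, hx⟩ ⟨y, hy⟩)

end Pool.Agent.Results.MP_a65cb7_co.Flexible
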